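import Pool.Agent.Y524F.Defs
import Pool.Agent.Y524.Final

/-! Comparison with the bundled definitions. -/

namespace Pool.Agent.Y524F

open Pool.Agent.Y524E

/-- forget the proofs -/
def toT (T : Trisection) : Triple := ⟨T.g, T.φ⟩

/-- add the proofs -/
def ofT (T : Triple) (k : ℕ) (h : IsTrisection T k) : Trisection where
  g := T.g
  k := k
  φ := T.φ
  surj := h.1
  closed := h.2.1
  sector := h.2.2

lemma toT_ofT (T : Triple) (k : ℕ) (h : IsTrisection T k) : toT (ofT T k h) = T := rfl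

lemma toT_stab (T : Trisection) : toT T.stab = stab (toT T) := rfl

lemma toT_stabn (T : Trisection) (n : ℕ) : toT (Trisection.stab^[n] T) = stab^[n] (toT T) := by
  induction n with
  | zero => rfl
  | succ n ih => rw [Function.iterate_succ_apply', Function.iterate_succ_apply', toT_stab, ih]

lemma isT (T : Trisection) : IsTrisection (toT T) T.k := ⟨T.surj, T.closed, T.sector⟩

lemma iso_iff (T T' : Trisection) : Iso (toT T) (toT T') ↔ Trisection.Iso T T' := Iff.rfl

lemma weak_not (T T' : Trisection) (h : T'.NotStab) : ¬ WeakIso (stab (toT T)) (toT T') := by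
  rintro ⟨σ, Q, _, p, p', hp, hp', hk, hk', H⟩
  let E1 : (Fg T.stab.g ⧸ Subgroup.normalClosure {Pool.Agent.Y524E.bd T.stab.g}) ≃* Q :=
    QuotientGroup.liftEquiv _ hp hk.symm
  let E2 : (Fg T'.g ⧸ Subgroup.normalClosure {Pool.Agent.Y524E.bd T'.g}) ≃* Q :=
    QuotientGroup.liftEquiv _ hp' hk'.symm
  refine h T σ (E1.trans E2.symm) fun i x y hxy => H i x y ?_
  have h1 : E1 (x : Fg T.stab.g ⧸ Subgroup.normalClosure {Pool.Agent.Y524E.bd T.stab.g}) =
      E2 (y : Fg T'.g ⧸ Subgroup.normalClosure {Pool.Agent.Y524E.bd T'.g}) := by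
    rw [← hxy, MulEquiv.trans_apply, MulEquiv.apply_symm_apply]
  exact h1

lemma same_iff (T T' : Trisection) :
    SameManifold (toT T) (toT T') ↔ Trisection.SameManifold T T' := by
  unfold SameManifold Trisection.SameManifold
  simp only [← toT_stabn, iso_iff]

lemma min_iff (T : Trisection) : Minimal (toT T) ↔ Trisection.Minimal T := by
  constructor
  · intro h T' h'
    exact h (toT T') T'.k (isT T') ((same_iff T T').2 h')
  · intro h T' k hk h'
    exact h (ofT T' k hk) ((same_iff T (ofT T' k hk)).1 h')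

/-- The main theorem in terms of triples. -/
theorem main : ∃ T₀ T : Triple, T₀.g = 5 ∧ IsTrisection T₀ 3 ∧ T.g = 8 ∧ IsTrisection T 4 ∧
    Iso (stab (stab T₀)) (stab T) ∧ (∀ U k, IsTrisection U k → ¬ WeakIso (stab U) T) ∧
    ¬ Minimal T ∧
    ∀ (M : Triple) (k n : ℕ), IsTrisection M k → Minimal M → ¬ Iso (stab^[n] M) T := by
  obtain ⟨T₀, T, h1, h2, h3, h4, h5, h6, h7, h8⟩ := Pool.Agent.Y524.main0
  refine ⟨toT T₀, toT T, h1, ?_, h3, ?_, h5, ?_, ?_, ?_⟩
  · rw [← h2]; exact isT T₀
  · rw [← h4]; exact isT T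
  · intro U k hU
    exact weak_not (ofT U k hU) T h6
  · rw [min_iff]; exact h7
  · intro M k n hM hm hi
    have hm' : (ofT M k hM).Minimal := (min_iff (ofT M k hM)).1 hm
    refine h8 (ofT M k hM) n hm' ?_
    rw [← iso_iff, toT_stabn]
    exact hi

end Pool.Agent.Y524F
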