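import Mathlib

/-! Group trisections (Abrams, Gay, Kirby): definitions. -/

namespace Pool.Agent.Y524F

/-- The boundary word `[a_0,b_0][a_1,b_1]⋯[a_{g-1},b_{g-1}]` in the free group on
`a_i = (i, false)`, `b_i = (i, true)`, `i < g`, which is the fundamental group of the compact
oriented surface of genus `g` with one boundary component. -/
def bd (g : ℕ) : FreeGroup (Fin g × Bool) :=
  (List.ofFn fun i : Fin g => FreeGroup.of (i, false) * FreeGroup.of (i, true) *
    (FreeGroup.of (i, false))⁻¹ * (FreeGroup.of (i, true))⁻¹).prod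

/-- The push-out `F / (ker f · ker f')` of two handlebody maps is free of rank `k` (that is, the
two handlebodies glue to the connected sum of `k` copies of `S¹ × S²`). -/
def PairFree {g : ℕ} (k : ℕ) (f f' : FreeGroup (Fin g × Bool) →* FreeGroup (Fin g)) : Prop :=
  ∃ L : FreeGroup (Fin g × Bool) →* FreeGroup (Fin k),
    Function.Surjective L ∧ L.ker = f.ker ⊔ f'.ker

/-- The three maps are surjective, kill the boundary word, and the three pairwise push-outs are
free of rank `k`. -/
def IsTri {g : ℕ} (φ : Fin 3 → (FreeGroup (Fin g × Bool) →* FreeGroup (Fin g))) (k : ℕ) : Prop :=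
  (∀ i, Function.Surjective (φ i)) ∧ (∀ i, φ i (bd g) = 1) ∧
    ∀ i j, i ≠ j → PairFree k (φ i) (φ j)

/-- Values of the `i`-th stabilized map on the generators: on the old letters the old map; on the
three new pairs `a_r, b_r` (`r = 0, 1, 2`) the `i`-th map kills `a_i` and the `b_r`, `r ≠ i`, and
sends the other one of `a_r, b_r` to the `r`-th new generator. -/
def stabFun {g : ℕ} (f : FreeGroup (Fin g × Bool) →* FreeGroup (Fin g)) (i : Fin 3)
    (x : Fin (g + 3) × Bool) : FreeGroup (Fin (g + 3)) :=
  Fin.addCases (fun j => FreeGroup.map (Fin.castAdd 3) (f (FreeGroup.of (j, x.2))))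
    (fun r => if (x.2 = false ↔ r = i) then 1 else FreeGroup.of (Fin.natAdd g r)) x.1

/-- Stabilization of the three maps. -/
def stabMaps {g : ℕ} (φ : Fin 3 → (FreeGroup (Fin g × Bool) →* FreeGroup (Fin g))) (i : Fin 3) :
    FreeGroup (Fin (g + 3) × Bool) →* FreeGroup (Fin (g + 3)) :=
  FreeGroup.lift (stabFun (φ i) i)

/-- Isomorphism of the three kernels through an isomorphism of free groups which preserves the
boundary word. -/
def IsoMaps {g g' : ℕ} (φ : Fin 3 → (FreeGroup (Fin g × Bool) →* FreeGroup (Fin g)))
    (φ' : Fin 3 → (FreeGroup (Fin g' × Bool) →* FreeGroup (Fin g'))) : Prop :=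
  ∃ f : FreeGroup (Fin g × Bool) ≃* FreeGroup (Fin g' × Bool),
    f (bd g) = bd g' ∧ ∀ i x, φ' i (f x) = 1 ↔ φ i x = 1

/-- Isomorphism up to a relabelling of the second triple, through an arbitrary isomorphism of the
closed surface groups (no condition on orientations or base points): both closed surface groups
`F / ⟨⟨bd⟩⟩` are identified with one group `Q`, compatibly with the three kernels. -/
def WeakIsoMaps {g g' : ℕ} (φ : Fin 3 → (FreeGroup (Fin g × Bool) →* FreeGroup (Fin g)))
    (φ' : Fin 3 → (FreeGroup (Fin g' × Bool) →* FreeGroup (Fin g'))) : Prop :=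
  ∃ (σ : Equiv.Perm (Fin 3)) (Q : Type) (_ : Group Q) (p : FreeGroup (Fin g × Bool) →* Q)
    (p' : FreeGroup (Fin g' × Bool) →* Q), Function.Surjective p ∧ Function.Surjective p' ∧
    p.ker = Subgroup.normalClosure {bd g} ∧ p'.ker = Subgroup.normalClosure {bd g'} ∧
    ∀ i x y, p x = p' y → (φ i x = 1 ↔ φ' (σ i) y = 1)

/-- Three homomorphisms to a free group of rank `g`. -/
structure Triple where
  g : ℕ
  φ : Fin 3 → (FreeGroup (Fin g × Bool) →* FreeGroup (Fin g))

/-- `T` is a balanced `(T.g, k)` group trisection. -/
def IsTrisection (T : Triple) (k : ℕ) : Prop := IsTri T.φ k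

/-- Stabilization: connected sum with the standard genus three trisection of the 4-sphere. -/
def stab (T : Triple) : Triple := ⟨T.g + 3, stabMaps T.φ⟩

/-- Orientation-preserving isomorphism of group trisections. -/
def Iso (T T' : Triple) : Prop := IsoMaps T.φ T'.φ

/-- Weak isomorphism of group trisections. -/
def WeakIso (T T' : Triple) : Prop := WeakIsoMaps T.φ T'.φ

/-- Two group trisections describe the same closed 4-manifold iff they are stably isomorphic. -/
def SameManifold (T T' : Triple) : Prop := ∃ m n : ℕ, Iso (stab^[m] T) (stab^[n] T')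

/-- Minimal genus among all balanced trisections of the same 4-manifold. -/
def Minimal (T : Triple) : Prop := ∀ T' k, IsTrisection T' k → SameManifold T T' → T.g ≤ T'.g

end Pool.Agent.Y524F
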